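import Mathlib

set_option autoImplicit false

/-! # Copies of a group of matrices in blocks (for helper67) -/

namespace Pool.Agent.H66.BHx

open Matrix

variable {F : Type} [Field F] {n r K l : ℕ}

/-- block matrices -/
def BB (E : Fin n ≃ (Fin r × Fin K) ⊕ Fin l) (A : Matrix (Fin r × Fin K) (Fin r × Fin K) F)
    (R : Matrix (Fin l) (Fin l) F) : Matrix (Fin n) (Fin n) F :=
  (fromBlocks A 0 0 R).submatrix E E

theorem BB_mul (E : Fin n ≃ (Fin r × Fin K) ⊕ Fin l)
    (A A' : Matrix (Fin r × Fin K) (Fin r × Fin K) F) (R R' : Matrix (Fin l) (Fin l) F) :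
    BB E A R * BB E A' R' = BB E (A * A') (R * R') := by
  unfold BB
  rw [submatrix_mul_equiv, fromBlocks_multiply]
  simp

theorem BB_det (E : Fin n ≃ (Fin r × Fin K) ⊕ Fin l)
    (A : Matrix (Fin r × Fin K) (Fin r × Fin K) F) (R : Matrix (Fin l) (Fin l) F) :
    (BB E A R).det = A.det * R.det := by
  unfold BB
  rw [det_submatrix_equiv_self, det_fromBlocks_zero₂₁]

theorem BB_one (E : Fin n ≃ (Fin r × Fin K) ⊕ Fin l) : BB (F := F) E 1 1 = 1 := by
  unfold BB
  rw [fromBlocks_one, submatrix_one_equiv]

theorem one_eq {α β : Type} [DecidableEq α] [DecidableEq β] (f : α → β)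
    (hf : Function.Injective f) (p q : α) :
    (1 : Matrix β β F) (f p) (f q) = (1 : Matrix α α F) p q := by
  by_cases h : p = q
  · subst h
    rw [one_apply_eq, one_apply_eq]
  · rw [one_apply_ne h, one_apply_ne fun h' => h (hf h')]

theorem copies {F : Type} [Field F] {n r K : ℕ}
    (T : Subgroup (Matrix.SpecialLinearGroup (Fin n) F))
    (hT : ∀ t ∈ T, ∀ i j : Fin n, (r ≤ (i : ℕ) ∨ r ≤ (j : ℕ)) →
      (t : Matrix (Fin n) (Fin n) F) i j = (1 : Matrix (Fin n) (Fin n) F) i j)
    (hK : 0 < K) (hn : K * r < n) :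
    ∃ (ψ : (Fin K → T) →* Matrix.SpecialLinearGroup (Fin n) F) (i0 : Fin K),
      (∀ t : T, ψ (Pi.mulSingle i0 t) = t) ∧
      (∀ (i : Fin K) (t : T), ∃ g, ψ (Pi.mulSingle i t) = g * ψ (Pi.mulSingle i0 t) * g⁻¹) ∧
      ∀ t : Fin K → T, Nat.card {i // t i ≠ 1} ≤ ((ψ t : Matrix (Fin n) (Fin n) F) - 1).rank ∧
        ((ψ t : Matrix (Fin n) (Fin n) F) - 1).rank ≤ K * r := by
  classical
  obtain ⟨l, hl⟩ : ∃ l, n = K * r + l := ⟨n - K * r, by omega⟩
  have hl0 : 0 < l := by omega
  let E : Fin n ≃ (Fin r × Fin K) ⊕ Fin l :=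
    (finCongr hl).trans (finSumFinEquiv.symm.trans (Equiv.sumCongr
      (finProdFinEquiv.symm.trans (Equiv.prodComm _ _)) (Equiv.refl (Fin l))))
  have hEl : ∀ (a : Fin r) (i : Fin K), ((E.symm (Sum.inl (a, i)) : Fin n) : ℕ) = a + r * i := by
    intro a i
    simp [E, finProdFinEquiv]
  have hEr : ∀ (j : Fin l), ((E.symm (Sum.inr j) : Fin n) : ℕ) = K * r + j := by
    intro j
    simp [E]
  let i0 : Fin K := ⟨0, hK⟩
  let res : Matrix (Fin n) (Fin n) F → Matrix (Fin r) (Fin r) F := fun x =>
    x.submatrix (fun a => E.symm (Sum.inl (a, i0))) (fun a => E.symm (Sum.inl (a, i0)))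
  let X : (Fin K → T) → Fin K → Matrix (Fin r) (Fin r) F := fun t i =>
    res ((t i : Matrix.SpecialLinearGroup (Fin n) F) : Matrix (Fin n) (Fin n) F)
  -- representation of the elements of `T`
  have hrep : ∀ x : T, ((x : Matrix.SpecialLinearGroup (Fin n) F) : Matrix (Fin n) (Fin n) F) =
      BB E (blockDiagonal (fun i => if i = i0 then
        res ((x : Matrix.SpecialLinearGroup (Fin n) F) : Matrix (Fin n) (Fin n) F) else 1)) 1 := by
    intro x
    ext p q
    obtain ⟨P, rfl⟩ := E.symm.surjective p
    obtain ⟨Q, rfl⟩ := E.symm.surjective q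
    have h1 : ∀ P Q, (1 : Matrix (Fin n) (Fin n) F) (E.symm P) (E.symm Q) =
        (1 : Matrix ((Fin r × Fin K) ⊕ Fin l) ((Fin r × Fin K) ⊕ Fin l) F) P Q := by
      intro P Q
      exact one_eq E.symm E.symm.injective P Q
    unfold BB
    rw [submatrix_apply, Equiv.apply_symm_apply, Equiv.apply_symm_apply]
    rcases P with ⟨a, i⟩ | j
    · rcases Q with ⟨b, i'⟩ | j'
      · rw [fromBlocks_apply₁₁, blockDiagonal_apply]
        by_cases hi : i = i0
        · by_cases hi' : i' = i0
          · rw [hi, hi', if_pos rfl, if_pos rfl]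
            rfl
          · rw [if_neg (by rw [hi]; exact fun h => hi' h.symm), hT _ x.2, h1, one_apply_ne]
            · intro h
              rw [Sum.inl.injEq, Prod.mk.injEq] at h
              exact hi' (h.2.symm.trans hi)
            · right
              rw [hEl]
              have : 0 < (i' : ℕ) := Nat.pos_of_ne_zero fun h => hi' (Fin.ext h)
              nlinarith
        · rw [hT _ x.2, h1]
          · rw [if_neg hi]
            by_cases hii : i = i'
            · rw [if_pos hii, one_apply, one_apply]
              congr 1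
              rw [Sum.inl.injEq, Prod.mk.injEq]
              exact propext ⟨fun h => h.1, fun h => ⟨h, hii⟩⟩
            · rw [if_neg hii, one_apply_ne]
              intro h
              rw [Sum.inl.injEq, Prod.mk.injEq] at h
              exact hii h.2
          · left
            rw [hEl]
            have : 0 < (i : ℕ) := Nat.pos_of_ne_zero fun h => hi (Fin.ext h)
            nlinarith
      · rw [fromBlocks_apply₁₂, hT _ x.2, h1, one_apply_ne]
        · rfl
        · exact Sum.inl_ne_inr
        · right
          rw [hEr]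
          nlinarith
    · rcases Q with ⟨b, i'⟩ | j'
      · rw [fromBlocks_apply₂₁, hT _ x.2, h1, one_apply_ne]
        · rfl
        · exact Sum.inr_ne_inl
        · left
          rw [hEr]
          nlinarith
      · rw [fromBlocks_apply₂₂, hT _ x.2, h1, one_apply, one_apply]
        · simp
        · left
          rw [hEr]
          nlinarith
  have hres_one : res 1 = 1 := by
    ext a b
    exact one_eq (fun a : Fin r => E.symm (Sum.inl (a, i0)))
      (fun a b h => (Prod.mk.inj (Sum.inl_injective (E.symm.injective h))).1) a b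
  have hresBB : ∀ (Y : Fin K → Matrix (Fin r) (Fin r) F) (R : Matrix (Fin l) (Fin l) F),
      res (BB E (blockDiagonal Y) R) = Y i0 := by
    intro Y R
    ext a b
    show (fromBlocks (blockDiagonal Y) 0 0 R) (E (E.symm _)) (E (E.symm _)) = _
    rw [Equiv.apply_symm_apply, Equiv.apply_symm_apply, fromBlocks_apply₁₁,
      blockDiagonal_apply, if_pos rfl]
  have hres_mul : ∀ x y : T, res (((x * y : T) : Matrix.SpecialLinearGroup (Fin n) F) :
      Matrix (Fin n) (Fin n) F) = res ((x : Matrix.SpecialLinearGroup (Fin n) F) :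
        Matrix (Fin n) (Fin n) F) * res ((y : Matrix.SpecialLinearGroup (Fin n) F) :
        Matrix (Fin n) (Fin n) F) := by
    intro x y
    have e1 : (((x * y : T) : Matrix.SpecialLinearGroup (Fin n) F) : Matrix (Fin n) (Fin n) F) =
        ((x : Matrix.SpecialLinearGroup (Fin n) F) : Matrix (Fin n) (Fin n) F) *
        ((y : Matrix.SpecialLinearGroup (Fin n) F) : Matrix (Fin n) (Fin n) F) := rfl
    rw [e1]
    conv_lhs => rw [hrep x, hrep y]
    rw [BB_mul, ← blockDiagonal_mul, hresBB, if_pos rfl, if_pos rfl]
  have hres_det : ∀ x : T, (res ((x : Matrix.SpecialLinearGroup (Fin n) F) :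
      Matrix (Fin n) (Fin n) F)).det = 1 := by
    intro x
    have h1 := (x : Matrix.SpecialLinearGroup (Fin n) F).2
    have h2 : (((x : Matrix.SpecialLinearGroup (Fin n) F) : Matrix (Fin n) (Fin n) F)).det = 1 := h1
    rw [hrep x, BB_det, det_blockDiagonal, det_one, mul_one, Finset.prod_eq_single i0] at h2
    · rwa [if_pos rfl] at h2
    · intro b _ hb
      rw [if_neg hb, det_one]
    · intro h
      exact absurd (Finset.mem_univ _) h
  have hres_inj : ∀ x : T, res ((x : Matrix.SpecialLinearGroup (Fin n) F) :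
      Matrix (Fin n) (Fin n) F) = 1 → x = 1 := by
    intro x hx
    have h1 := hrep x
    rw [hx] at h1
    have h2 : (blockDiagonal (fun i : Fin K => if i = i0 then
        (1 : Matrix (Fin r) (Fin r) F) else 1)) = 1 := by
      have e : (fun i : Fin K => if i = i0 then (1 : Matrix (Fin r) (Fin r) F) else 1) = 1 := by
        funext i
        split_ifs <;> rfl
      rw [e, blockDiagonal_one]
    rw [h2, BB_one] at h1
    apply Subtype.ext
    apply Subtype.ext
    exact h1
  have hX_one : X 1 = 1 := by
    funext i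
    exact hres_one
  have hX_mul : ∀ s t, X (s * t) = fun i => X s i * X t i := by
    intro s t
    funext i
    exact hres_mul (s i) (t i)
  have hdet : ∀ t, (BB E (blockDiagonal (X t)) 1).det = 1 := by
    intro t
    rw [BB_det, det_blockDiagonal, det_one, mul_one]
    exact Finset.prod_eq_one fun i _ => hres_det (t i)
  let ψ : (Fin K → T) →* Matrix.SpecialLinearGroup (Fin n) F :=
    { toFun := fun t => ⟨BB E (blockDiagonal (X t)) 1, hdet t⟩
      map_one' := by
        apply Subtype.ext
        show BB E (blockDiagonal (X 1)) 1 = 1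
        rw [hX_one, blockDiagonal_one, BB_one]
      map_mul' := by
        intro s t
        apply Subtype.ext
        show BB E (blockDiagonal (X (s * t))) 1 =
          BB E (blockDiagonal (X s)) 1 * BB E (blockDiagonal (X t)) 1
        rw [hX_mul, BB_mul, blockDiagonal_mul, one_mul] }
  have hψ : ∀ t, (ψ t : Matrix (Fin n) (Fin n) F) = BB E (blockDiagonal (X t)) 1 := fun t => rfl
  have hXs : ∀ (i : Fin K) (x : T), X (Pi.mulSingle i x) = fun j => if j = i then
      res ((x : Matrix.SpecialLinearGroup (Fin n) F) : Matrix (Fin n) (Fin n) F) else 1 := by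
    intro i x
    funext j
    by_cases hj : j = i
    · subst hj
      show res (((Pi.mulSingle j x : Fin K → T) j : Matrix.SpecialLinearGroup (Fin n) F) :
        Matrix (Fin n) (Fin n) F) = _
      rw [Pi.mulSingle_eq_same, if_pos rfl]
    · show res (((Pi.mulSingle i x : Fin K → T) j : Matrix.SpecialLinearGroup (Fin n) F) :
        Matrix (Fin n) (Fin n) F) = _
      rw [Pi.mulSingle_eq_of_ne hj, if_neg hj]
      exact hres_one
  refine ⟨ψ, i0, ?_, ?_, ?_⟩
  · intro t
    apply Subtype.ext
    show BB E (blockDiagonal (X (Pi.mulSingle i0 t))) 1 = _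
    rw [hXs]
    exact (hrep t).symm
  · intro i t
    let τ : Equiv.Perm (Fin r × Fin K) := Equiv.prodCongr (Equiv.refl _) (Equiv.swap i i0)
    let Q : Matrix (Fin r × Fin K) (Fin r × Fin K) F :=
      (1 : Matrix (Fin r × Fin K) (Fin r × Fin K) F).submatrix τ id
    let ε : F := ((Equiv.Perm.sign τ : ℤ) : F)
    have hQ : Q.det = ε := by
      show ((1 : Matrix (Fin r × Fin K) (Fin r × Fin K) F).submatrix τ id).det = _
      rw [det_permute, det_one, mul_one]
    have hε : ε * ε = 1 := by
      show ((Equiv.Perm.sign τ : ℤ) : F) * ((Equiv.Perm.sign τ : ℤ) : F) = 1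
      rw [← Int.cast_mul, ← Units.val_mul, Int.units_mul_self]
      simp
    let R : Matrix (Fin l) (Fin l) F := diagonal fun j => if j = ⟨0, hl0⟩ then ε else 1
    have hR : R.det = ε := by
      show (diagonal _).det = _
      rw [det_diagonal, Finset.prod_ite_eq' Finset.univ]
      simp
    let g : Matrix.SpecialLinearGroup (Fin n) F := ⟨BB E Q R, by rw [BB_det, hQ, hR, hε]⟩
    refine ⟨g, ?_⟩
    rw [eq_mul_inv_iff_mul_eq]
    apply Subtype.ext
    show BB E (blockDiagonal (X (Pi.mulSingle i t))) 1 * BB E Q R =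
      BB E Q R * BB E (blockDiagonal (X (Pi.mulSingle i0 t))) 1
    rw [BB_mul, BB_mul, one_mul, mul_one]
    congr 1
    have e1 : blockDiagonal (X (Pi.mulSingle i t)) =
        (blockDiagonal (X (Pi.mulSingle i0 t))).submatrix τ τ := by
      ext ⟨a, k⟩ ⟨b, k'⟩
      rw [submatrix_apply]
      show blockDiagonal _ _ _ = blockDiagonal _ (a, Equiv.swap i i0 k) (b, Equiv.swap i i0 k')
      rw [blockDiagonal_apply, blockDiagonal_apply, hXs, hXs]
      by_cases hk : k = k'
      · subst hk
        rw [if_pos rfl, if_pos rfl]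
        have e2 : (k = i) ↔ (Equiv.swap i i0 k = i0) := by
          rw [Equiv.swap_apply_eq_iff, Equiv.swap_apply_right]
        have e5 : (if k = i then res ((t : Matrix.SpecialLinearGroup (Fin n) F) :
              Matrix (Fin n) (Fin n) F) else 1) =
            (if Equiv.swap i i0 k = i0 then res ((t : Matrix.SpecialLinearGroup (Fin n) F) :
              Matrix (Fin n) (Fin n) F) else 1) := by
          by_cases hki : k = i
          · rw [if_pos hki, if_pos (e2.1 hki)]
          · rw [if_neg hki, if_neg fun h => hki (e2.2 h)]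
        exact congrFun (congrFun e5 a) b
      · rw [if_neg hk, if_neg fun h => hk ((Equiv.swap i i0).injective h)]
    rw [e1]
    have e3 : (blockDiagonal (X (Pi.mulSingle i0 t))).submatrix τ τ * Q =
        (blockDiagonal (X (Pi.mulSingle i0 t)) * 1).submatrix τ id :=
      submatrix_mul_equiv _ _ _ _ _
    have e4 : Q * blockDiagonal (X (Pi.mulSingle i0 t)) =
        (1 * blockDiagonal (X (Pi.mulSingle i0 t))).submatrix τ id :=
      submatrix_mul_equiv _ _ _ (Equiv.refl _) _
    rw [e3, e4, mul_one, one_mul]
  · intro t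
    have hsub : (ψ t : Matrix (Fin n) (Fin n) F) - 1 = BB E (blockDiagonal (X t) - 1) 0 := by
      rw [hψ]
      ext p q
      rw [Matrix.sub_apply]
      unfold BB
      rw [submatrix_apply, submatrix_apply]
      have h1 : (1 : Matrix (Fin n) (Fin n) F) p q =
          (1 : Matrix ((Fin r × Fin K) ⊕ Fin l) ((Fin r × Fin K) ⊕ Fin l) F) (E p) (E q) := by
        exact (one_eq E E.injective p q).symm
      rw [h1]
      rcases E p with P | P <;> rcases E q with Q | Q
      · rw [fromBlocks_apply₁₁, fromBlocks_apply₁₁, Matrix.sub_apply,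
          one_eq Sum.inl Sum.inl_injective]
      · rw [fromBlocks_apply₁₂, fromBlocks_apply₁₂, one_apply_ne Sum.inl_ne_inr]
        simp
      · rw [fromBlocks_apply₂₁, fromBlocks_apply₂₁, one_apply_ne Sum.inr_ne_inl]
        simp
      · rw [fromBlocks_apply₂₂, fromBlocks_apply₂₂, one_eq Sum.inr Sum.inr_injective, sub_self]
        rfl
    constructor
    · have hch : ∀ i : {i // t i ≠ 1}, ∃ a b, X t i a b ≠ (1 : Matrix (Fin r) (Fin r) F) a b := by
        intro i
        by_contra hcon
        push Not at hcon
        exact i.2 (hres_inj (t i) (by ext a b; exact hcon a b))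
      choose a b hab using hch
      have h6 := Matrix.rank_submatrix_le ((ψ t : Matrix (Fin n) (Fin n) F) - 1)
        (fun i : {i // t i ≠ 1} => E.symm (Sum.inl (a i, (i : Fin K))))
        (fun i : {i // t i ≠ 1} => E.symm (Sum.inl (b i, (i : Fin K))))
      have h7 : ((ψ t : Matrix (Fin n) (Fin n) F) - 1).submatrix
          (fun i : {i // t i ≠ 1} => E.symm (Sum.inl (a i, (i : Fin K))))
          (fun i : {i // t i ≠ 1} => E.symm (Sum.inl (b i, (i : Fin K)))) =
          diagonal fun i : {i // t i ≠ 1} =>
            X t i (a i) (b i) - (1 : Matrix (Fin r) (Fin r) F) (a i) (b i) := by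
        ext i j
        rw [submatrix_apply, hsub]
        unfold BB
        rw [submatrix_apply, Equiv.apply_symm_apply, Equiv.apply_symm_apply, fromBlocks_apply₁₁,
          Matrix.sub_apply, blockDiagonal_apply]
        by_cases hij : i = j
        · subst hij
          rw [if_pos rfl, diagonal_apply_eq, one_apply, one_apply]
          simp
        · have hij' : (i : Fin K) ≠ j := fun h => hij (Subtype.ext h)
          rw [if_neg hij', diagonal_apply_ne _ hij, one_apply_ne, sub_zero]
          intro h
          exact hij' (congrArg Prod.snd h)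
      rw [h7] at h6
      have h8 : (diagonal fun i : {i // t i ≠ 1} =>
            X t i (a i) (b i) - (1 : Matrix (Fin r) (Fin r) F) (a i) (b i)).rank =
          Fintype.card {i // t i ≠ 1} := by
        apply Matrix.rank_of_isUnit
        rw [isUnit_iff_isUnit_det, det_diagonal, isUnit_iff_ne_zero]
        exact Finset.prod_ne_zero_iff.2 fun i _ => sub_ne_zero.2 (hab i)
      rw [h8] at h6
      rw [Nat.card_eq_fintype_card]
      exact h6
    · rw [hsub]
      have h9 : BB E (blockDiagonal (X t) - 1) 0 =
          (fromRows (blockDiagonal (X t) - 1) 0).submatrix E id *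
            (fromCols 1 0 : Matrix (Fin r × Fin K) ((Fin r × Fin K) ⊕ Fin l) F).submatrix id E := by
        have h10 := submatrix_mul_equiv (fromRows (blockDiagonal (X t) - 1)
          (0 : Matrix (Fin l) (Fin r × Fin K) F))
          (fromCols 1 0 : Matrix (Fin r × Fin K) ((Fin r × Fin K) ⊕ Fin l) F) E (Equiv.refl _) E
        refine Eq.trans ?_ h10.symm
        unfold BB
        rw [fromRows_mul_fromCols]
        simp
      rw [h9]
      refine (Matrix.rank_mul_le_left _ _).trans ((Matrix.rank_le_card_width _).trans ?_)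
      rw [Fintype.card_prod, Fintype.card_fin, Fintype.card_fin, mul_comm]

end Pool.Agent.H66.BHx
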